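import Mathlib
import Pool.Agent.H38R3.Mad

/-!
# A Ramsey-type core lemma for analytic families

The combinatorial core: an analytic family, given as a continuous image `g x`, together with
relations `Φ j A a b` (each depending on finitely many coordinates of `A`), cannot satisfy the three
hypotheses of `core` simultaneously.
-/

namespace Pool.Agent.X215.Dens

open Pool.Agent.H38R3.Ell Pool.Agent.H38R3.Mad

/-- `A` extends the list `τ`. -/
def Ext (τ : List Bool) (A : ℕ → Bool) : Prop := ∀ i v, τ[i]? = some v → A i = v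

/-- Infinitely many pairs of `z` satisfy `Φ j A`. -/
def Hit (Φ : ℕ → (ℕ → Bool) → ℕ → ℕ → Prop) (j : ℕ) (A : ℕ → Bool) (z : Set ℕ) : Prop :=
  {k | Φ j A (en z (2 * k)) (en z (2 * k + 1))}.Infinite

/-- The positive sets. -/
def SP (Φ : ℕ → (ℕ → Bool) → ℕ → ℕ → Prop) (g : (ℕ → ℕ) → (ℕ → Bool)) (τ : List Bool) (j : ℕ) :
    Set (Set ℕ) :=
  {z | ∃ x, Ext τ (g x) ∧ Hit Φ j (g x) z}

theorem hit_tl {Φ : ℕ → (ℕ → Bool) → ℕ → ℕ → Prop} {j : ℕ} {A : ℕ → Bool} {z : Set ℕ}
    (hz : z.Infinite) (l : ℕ) : Hit Φ j A (tl z l) ↔ Hit Φ j A z := by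
  unfold Hit
  simp only [en_tl hz]
  have h1 : ∀ k, 2 * l + 2 * k = 2 * (l + k) := fun k => by ring
  have h2 : ∀ k, 2 * l + (2 * k + 1) = 2 * (l + k) + 1 := fun k => by ring
  simp only [h1, h2]
  constructor
  · intro h
    have h3 : ((fun k => l + k) '' {k | Φ j A (en z (2 * (l + k))) (en z (2 * (l + k) + 1))}).Infinite :=
      h.image (fun a _ b _ hab => by simpa using hab)
    refine h3.mono ?_
    rintro _ ⟨k, hk, rfl⟩
    exact hk
  · intro h hf
    refine h (((hf.image fun k => l + k).union (Set.finite_Iio l)).subset ?_)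
    intro k hk
    by_cases hkl : k < l
    · exact Or.inr hkl
    · left
      refine ⟨k - l, ?_, by show l + (k - l) = k; omega⟩
      have h4 : l + (k - l) = k := by omega
      show Φ j A (en z (2 * (l + (k - l)))) (en z (2 * (l + (k - l)) + 1))
      rw [h4]
      exact hk

theorem sp_tl {Φ : ℕ → (ℕ → Bool) → ℕ → ℕ → Prop} {g : (ℕ → ℕ) → (ℕ → Bool)} {τ : List Bool}
    {j : ℕ} {z : Set ℕ} (hz : z.Infinite) (l : ℕ) : tl z l ∈ SP Φ g τ j ↔ z ∈ SP Φ g τ j := by
  constructor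
  · rintro ⟨x, h1, h2⟩
    exact ⟨x, h1, (hit_tl hz l).1 h2⟩
  · rintro ⟨x, h1, h2⟩
    exact ⟨x, h1, (hit_tl hz l).2 h2⟩

/-- The positive sets are completely Ramsey. -/
theorem cr_SP {Φ : ℕ → (ℕ → Bool) → ℕ → ℕ → Prop}
    (hΦ : ∀ j a b, ∃ N, ∀ A A' : ℕ → Bool, (∀ n < N, A n = A' n) → Φ j A a b → Φ j A' a b)
    {g : (ℕ → ℕ) → (ℕ → Bool)} (hg : Continuous g) (τ : List Bool) (j : ℕ) :
    CR (SP Φ g τ j) := by
  classical
  let Q : List ℕ → Prop := fun p => ∃ x, Ext τ (g x) ∧ ∀ i v, p[i]? = some v →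
    x i = v.unpair.1 ∧ i ≤ v.unpair.2.unpair.1 ∧
      Φ j (g x) v.unpair.2.unpair.1 v.unpair.2.unpair.2
  let C : List ℕ → Set (Set ℕ) := fun p =>
    {z | (∀ i v : ℕ, p[i]? = some v → ∃ k, en z (2 * k) = v.unpair.2.unpair.1 ∧
      en z (2 * k + 1) = v.unpair.2.unpair.2) ∧ Q p}
  have hC : ∀ p, EO (C p)ᶜ := by
    intro p z hz hzi
    by_cases hQ : Q p
    · have hz' : ¬ ∀ i v : ℕ, p[i]? = some v → ∃ k, en z (2 * k) = v.unpair.2.unpair.1 ∧
          en z (2 * k + 1) = v.unpair.2.unpair.2 := fun h => hz ⟨h, hQ⟩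
      rw [not_forall] at hz'
      obtain ⟨i, hz'⟩ := hz'
      rw [not_forall] at hz'
      obtain ⟨v, hz'⟩ := hz'
      rw [Classical.not_imp] at hz'
      obtain ⟨hiv, hm⟩ := hz'
      set a := v.unpair.2.unpair.1
      set c := v.unpair.2.unpair.2
      obtain ⟨u, hu1, hu2, hu3, -⟩ := exists_init hzi (a + c + 1) 0
      refine ⟨u, hu1, fun w hw hwC => hm ?_⟩
      obtain ⟨k, hk1, hk2⟩ := hwC.1 i v hiv
      have hcon : ∀ n < a + c + 1, (n ∈ w ↔ n ∈ z) := by
        intro n hn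
        constructor
        · intro h
          rcases hw.2.2 n h with h' | h'
          · exact hu3 n h'
          · exact h'.1
        · intro h
          exact hw.2.1 n (hu2 n h hn)
      exact ⟨k, en_congr hw.1 hcon (by omega) hk1, en_congr hw.1 hcon (by omega) hk2⟩
    · exact ⟨∅, ⟨hzi, by simp, fun n hn => Or.inr (by rwa [above_empty])⟩,
        fun w _ hwC => hQ hwC.2⟩
  have heq : ∀ z : Set ℕ, z.Infinite → (z ∈ SP Φ g τ j ↔ z ∈ Sou C) := by
    intro z hzi
    constructor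
    · rintro ⟨x, hx1, hx2⟩
      have h1 : ∀ i : ℕ, ∃ k, i ≤ k ∧ Φ j (g x) (en z (2 * k)) (en z (2 * k + 1)) := by
        intro i
        obtain ⟨m, hm, hm'⟩ := hx2.exists_gt i
        exact ⟨m, hm'.le, hm⟩
      choose h hh1 hh2 using h1
      refine ⟨fun i => Nat.pair (x i) (Nat.pair (en z (2 * h i)) (en z (2 * h i + 1))),
        fun k => ⟨?_, x, hx1, ?_⟩⟩
      · intro i v hv
        rw [pre_getElem] at hv
        rw [← hv.2]
        simp only [Nat.unpair_pair]
        exact ⟨h i, rfl, rfl⟩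
      · intro i v hv
        rw [pre_getElem] at hv
        rw [← hv.2]
        simp only [Nat.unpair_pair]
        refine ⟨trivial, ?_, hh2 i⟩
        have h3 := (en_strictMono hzi).id_le (2 * h i)
        have h4 := hh1 i
        simp only [id_eq] at h3
        omega
    · rintro ⟨f, hf⟩
      set x : ℕ → ℕ := fun i => (f i).unpair.1 with hx
      have h1 : ∀ k, ∃ x', Ext τ (g x') ∧ ∀ i < k, x' i = x i ∧ i ≤ (f i).unpair.2.unpair.1 ∧
          Φ j (g x') (f i).unpair.2.unpair.1 (f i).unpair.2.unpair.2 := by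
        intro k
        obtain ⟨-, x', h2, h3⟩ := hf k
        exact ⟨x', h2, fun i hi => h3 i (f i) ((pre_getElem f k i (f i)).2 ⟨hi, rfl⟩)⟩
      choose x' h2 h3 using h1
      have hlim : Filter.Tendsto x' Filter.atTop (nhds x) := by
        rw [tendsto_pi_nhds]
        intro i
        refine tendsto_const_nhds.congr' ?_
        filter_upwards [Filter.eventually_gt_atTop i] with k hk
        exact ((h3 k i hk).1).symm
      have hlim2 : Filter.Tendsto (fun k => g (x' k)) Filter.atTop (nhds (g x)) :=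
        (hg.tendsto x).comp hlim
      rw [tendsto_pi_nhds] at hlim2
      have hev : ∀ n, ∀ᶠ k in Filter.atTop, g (x' k) n = g x n := by
        intro n
        have := hlim2 n
        rw [nhds_discrete] at this
        exact Filter.tendsto_pure.1 this
      have hevN : ∀ N, ∀ᶠ k in Filter.atTop, ∀ n < N, g (x' k) n = g x n := by
        intro N
        induction N with
        | zero => exact Filter.Eventually.of_forall fun k n hn => absurd hn (Nat.not_lt_zero n)
        | succ N ih =>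
          filter_upwards [ih, hev N] with k h4 h5 n hn
          rcases Nat.lt_succ_iff_lt_or_eq.1 hn with h6 | h6
          · exact h4 n h6
          · rw [h6]; exact h5
      have hΦx : ∀ i, i ≤ (f i).unpair.2.unpair.1 ∧
          Φ j (g x) (f i).unpair.2.unpair.1 (f i).unpair.2.unpair.2 := by
        intro i
        obtain ⟨N, hN⟩ := hΦ j (f i).unpair.2.unpair.1 (f i).unpair.2.unpair.2
        obtain ⟨k, hk1, hk2⟩ := ((hevN N).and (Filter.eventually_gt_atTop i)).exists
        exact ⟨(h3 k i hk2).2.1, hN _ _ hk1 (h3 k i hk2).2.2⟩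
      refine ⟨x, ?_, ?_⟩
      · intro i v hiv
        obtain ⟨k, hk⟩ := (hev i).exists
        rw [← hk]
        exact h2 k i v hiv
      · have h5 : ∀ i, ∃ k, en z (2 * k) = (f i).unpair.2.unpair.1 ∧
            en z (2 * k + 1) = (f i).unpair.2.unpair.2 := fun i =>
          (hf (i + 1)).1 i (f i) ((pre_getElem f (i + 1) i (f i)).2 ⟨by omega, rfl⟩)
        choose κ hκ1 hκ2 using h5
        have h6 : Set.range κ ⊆ {k | Φ j (g x) (en z (2 * k)) (en z (2 * k + 1))} := by
          rintro _ ⟨i, rfl⟩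
          show Φ j (g x) (en z (2 * κ i)) (en z (2 * κ i + 1))
          rw [hκ1, hκ2]
          exact (hΦx i).2
        refine Set.Infinite.mono h6 ?_
        intro hfin
        obtain ⟨M, hM⟩ := hfin.bddAbove
        have h7 := hM ⟨en z (2 * M) + 1, rfl⟩
        have h8 := (hΦx (en z (2 * M) + 1)).1
        rw [← hκ1] at h8
        have h9 : en z (2 * κ (en z (2 * M) + 1)) ≤ en z (2 * M) :=
          (en_strictMono hzi).monotone (by omega)
        omega
  intro t X hX
  obtain ⟨Y, hY, hYi, h1⟩ := cr_sou C hC t X hX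
  refine ⟨Y, hY, hYi, ?_⟩
  rcases h1 with h1 | h1
  · exact Or.inl fun z hz => (heq z hz.1).2 (h1 z hz)
  · exact Or.inr fun z hz h => h1 z hz ((heq z hz.1).1 h)

/-- Passing to a subsequence of pairs. -/
theorem exists_sub {z : Set ℕ} (hz : z.Infinite) {P : ℕ → ℕ → Prop}
    (hP : {k | P (en z (2 * k)) (en z (2 * k + 1))}.Infinite) :
    ∃ z' ⊆ z, z'.Infinite ∧ (∀ k, P (en z' (2 * k)) (en z' (2 * k + 1))) ∧
      ∀ k, ∃ l, en z' (2 * k) = en z (2 * l) ∧ en z' (2 * k + 1) = en z (2 * l + 1) := by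
  set D : Set ℕ := {k | P (en z (2 * k)) (en z (2 * k + 1))} with hD
  set h : ℕ → ℕ := fun i => en z (2 * en D (i / 2) + i % 2) with hh
  have hm : StrictMono h := by
    refine strictMono_nat_of_lt_succ fun i => en_strictMono hz ?_
    rcases Nat.even_or_odd' i with ⟨k, hk | hk⟩
    · have h1 : i / 2 = k := by omega
      have h2 : (i + 1) / 2 = k := by omega
      rw [h1, h2]
      omega
    · have h1 : i / 2 = k := by omega
      have h2 : (i + 1) / 2 = k + 1 := by omega
      rw [h1, h2]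
      have := en_strictMono hP (Nat.lt_succ_self k)
      simp only [Nat.succ_eq_add_one] at this
      omega
  have h1 : ∀ k, h (2 * k) = en z (2 * en D k) := by
    intro k
    simp only [hh]
    congr 1
    have : 2 * k / 2 = k := by omega
    rw [this]
    omega
  have h2 : ∀ k, h (2 * k + 1) = en z (2 * en D k + 1) := by
    intro k
    simp only [hh]
    congr 1
    have : (2 * k + 1) / 2 = k := by omega
    rw [this]
    omega
  refine ⟨Set.range h, ?_, Set.infinite_range_of_injective hm.injective, ?_, ?_⟩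
  · rintro _ ⟨i, rfl⟩
    exact en_mem hz _
  · intro k
    rw [en_range hm, h1, h2]
    exact en_mem hP k
  · intro k
    rw [en_range hm, h1, h2]
    exact ⟨en D k, rfl, rfl⟩

/-- Avoiding a relation all of whose sections are finite from some point on. -/
theorem exists_avoid' {Y : Set ℕ} (hY : Y.Infinite) {P : ℕ → ℕ → Prop}
    (hP : ∃ a₀, ∀ a ≥ a₀, {b | P a b}.Finite) :
    ∃ z ⊆ Y, z.Infinite ∧ ∀ k, ¬ P (en z (2 * k)) (en z (2 * k + 1)) := by
  obtain ⟨a₀, ha₀⟩ := hP
  have hstep : ∀ n, ∃ p : ℕ × ℕ, n < p.1 ∧ p.1 < p.2 ∧ p.1 ∈ Y ∧ p.2 ∈ Y ∧ ¬ P p.1 p.2 := by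
    intro n
    obtain ⟨a, ha, ha'⟩ := hY.exists_gt (max n a₀)
    have h1 : (Y \ {b | P a b}).Infinite :=
      hY.sdiff (ha₀ a (le_trans (le_max_right _ _) ha'.le))
    obtain ⟨b, hb, hb'⟩ := h1.exists_gt a
    exact ⟨(a, b), lt_of_le_of_lt (le_max_left _ _) ha', hb', ha, hb.1, hb.2⟩
  choose R hP1 hP2 hP3 hP4 hP5 using hstep
  let s : ℕ → ℕ × ℕ := fun k => Nat.rec (R 0) (fun _ p => R p.2) k
  have hs : ∀ k, s (k + 1) = R (s k).2 := fun k => rfl
  have hs' : ∀ k, ∃ n, s k = R n := by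
    intro k
    cases k with
    | zero => exact ⟨0, rfl⟩
    | succ k => exact ⟨_, rfl⟩
  set h : ℕ → ℕ := fun i => if i % 2 = 0 then (s (i / 2)).1 else (s (i / 2)).2 with hh
  have he : ∀ k, h (2 * k) = (s k).1 := by
    intro k
    have h1 : 2 * k % 2 = 0 := by omega
    have h2 : 2 * k / 2 = k := by omega
    simp only [hh, h1, h2, if_true]
  have ho : ∀ k, h (2 * k + 1) = (s k).2 := by
    intro k
    have h1 : (2 * k + 1) % 2 = 1 := by omega
    have h2 : (2 * k + 1) / 2 = k := by omega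
    simp [hh, h1, h2]
  have hm : StrictMono h := by
    refine strictMono_nat_of_lt_succ fun i => ?_
    rcases Nat.even_or_odd' i with ⟨k, hk | hk⟩
    · rw [hk, he, ho]
      obtain ⟨n, hn⟩ := hs' k
      rw [hn]
      exact hP2 n
    · rw [hk, ho, show 2 * k + 1 + 1 = 2 * (k + 1) by ring, he, hs]
      exact hP1 _
  refine ⟨Set.range h, ?_, Set.infinite_range_of_injective hm.injective, ?_⟩
  · rintro _ ⟨i, rfl⟩
    rcases Nat.even_or_odd' i with ⟨k, hk | hk⟩
    · rw [hk, he]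
      obtain ⟨n, hn⟩ := hs' k
      rw [hn]
      exact hP3 n
    · rw [hk, ho]
      obtain ⟨n, hn⟩ := hs' k
      rw [hn]
      exact hP4 n
  · intro k
    rw [en_range hm, he, ho]
    obtain ⟨n, hn⟩ := hs' k
    rw [hn]
    exact hP5 n

/-- **The core lemma.** -/
theorem core {Φ : ℕ → (ℕ → Bool) → ℕ → ℕ → Prop}
    (hΦ : ∀ j a b, ∃ N, ∀ A A' : ℕ → Bool, (∀ n < N, A n = A' n) → Φ j A a b → Φ j A' a b)
    {g : (ℕ → ℕ) → (ℕ → Bool)} (hg : Continuous g)
    (h1 : ∀ z : Set ℕ, z.Infinite → ∃ x j, Hit Φ j (g x) z)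
    (h2 : ∀ j, ∃ r : ℕ, ∀ F : Fin r → (ℕ → ℕ), Function.Injective (fun i => g (F i)) →
      ∀ z : Set ℕ, z.Infinite → ¬ ∀ k i, Φ j (g (F i)) (en z (2 * k)) (en z (2 * k + 1)))
    (h3 : ∀ x j, ∃ a₀, ∀ a ≥ a₀, {b | Φ j (g x) a b}.Finite) : False := by
  classical
  obtain ⟨c, hc⟩ := exists_surjective_nat (List Bool × ℕ)
  obtain ⟨Y, -, hYi, hhom⟩ := exists_hom (S := fun i => SP Φ g (c i).1 (c i).2)
    (fun i => cr_SP hΦ hg _ _) (fun i z j hz => sp_tl hz j) Set.infinite_univ
  have hhom' : ∀ τ j, (∀ z ⊆ Y, z.Infinite → z ∈ SP Φ g τ j) ∨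
      ∀ z ⊆ Y, z.Infinite → z ∉ SP Φ g τ j := by
    intro τ j
    obtain ⟨i, hi⟩ := hc (τ, j)
    have := hhom i
    rwa [hi] at this
  obtain ⟨x₀, j, hx₀⟩ := h1 Y hYi
  have hnil : ∀ z ⊆ Y, z.Infinite → z ∈ SP Φ g [] j := by
    rcases hhom' [] j with h | h
    · exact h
    · exact absurd ⟨x₀, fun i v hv => by simp at hv, hx₀⟩ (h Y le_rfl hYi)
  -- the closed set of persistent members
  let pr : (ℕ → Bool) → ℕ → List Bool := fun A n => (List.range n).map A
  have hpr : ∀ A n i v, (pr A n)[i]? = some v ↔ i < n ∧ A i = v := by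
    intro A n i v
    show ((List.range n).map A)[i]? = some v ↔ _
    rw [List.getElem?_map]
    by_cases h : i < n
    · rw [List.getElem?_range h]
      simp [h]
    · have : (List.range n)[i]? = none := by
        rw [List.getElem?_eq_none_iff, List.length_range]
        omega
      rw [this]
      simp [h]
  let K : Set (ℕ → Bool) := {A | (∃ x, g x = A) ∧ ∀ n, ∀ z ⊆ Y, z.Infinite → z ∈ SP Φ g (pr A n) j}
  have hK : ∀ z ⊆ Y, z.Infinite → ∀ x, Hit Φ j (g x) z → g x ∈ K := by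
    intro z hz hzi x hx
    refine ⟨⟨x, rfl⟩, fun n => ?_⟩
    rcases hhom' (pr (g x) n) j with h | h
    · exact h
    · exact absurd ⟨x, fun i v hv => ((hpr _ _ _ _).1 hv).2, hx⟩ (h z hz hzi)
  -- it is finite
  have hKfin : K.Finite := by
    by_contra hinf
    obtain ⟨r, hr⟩ := h2 j
    obtain ⟨s, hsK, hsr⟩ := Set.Infinite.exists_subset_card_eq hinf r
    let A : Fin r → (ℕ → Bool) := fun i => (s.equivFinOfCardEq hsr).symm i
    have hAK : ∀ i, A i ∈ K := fun i => hsK ((s.equivFinOfCardEq hsr).symm i).2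
    have hAinj : Function.Injective A := fun i i' h =>
      (s.equivFinOfCardEq hsr).symm.injective (Subtype.ext h)
    -- a common separating level
    have hsep : ∃ N, ∀ i i', i ≠ i' → ∃ n < N, A i n ≠ A i' n := by
      have h4 : ∀ p : Fin r × Fin r, ∃ n, p.1 ≠ p.2 → A p.1 n ≠ A p.2 n := by
        intro p
        by_cases hp : p.1 = p.2
        · exact ⟨0, fun h => absurd hp h⟩
        · have : A p.1 ≠ A p.2 := fun h => hp (hAinj h)
          obtain ⟨n, hn⟩ := Function.ne_iff.1 this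
          exact ⟨n, fun _ => hn⟩
      choose ν hν using h4
      refine ⟨(Finset.univ.sup ν) + 1, fun i i' hne => ⟨ν (i, i'), ?_, hν (i, i') hne⟩⟩
      exact Nat.lt_succ_of_le (Finset.le_sup (f := ν) (Finset.mem_univ _))
    obtain ⟨N, hN⟩ := hsep
    -- choose members one after the other
    have hind : ∀ m ≤ r, ∃ z ⊆ Y, z.Infinite ∧ ∃ F : Fin r → (ℕ → ℕ), ∀ i : Fin r, i.1 < m →
        Ext (pr (A i) N) (g (F i)) ∧ ∀ k, Φ j (g (F i)) (en z (2 * k)) (en z (2 * k + 1)) := by
      intro m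
      induction m with
      | zero => exact fun _ => ⟨Y, le_rfl, hYi, fun _ _ => 0, fun i hi => absurd hi (by omega)⟩
      | succ m ih =>
        intro hm
        obtain ⟨z, hz, hzi, F, hF⟩ := ih (by omega)
        obtain ⟨x, hx1, hx2⟩ := (hAK ⟨m, hm⟩).2 N z hz hzi
        obtain ⟨z', hz', hzi', h5, h6⟩ := exists_sub hzi hx2
        refine ⟨z', hz'.trans hz, hzi', Function.update F ⟨m, hm⟩ x, fun i hi => ?_⟩
        by_cases him : i = ⟨m, hm⟩
        · subst him
          rw [Function.update_self]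
          exact ⟨hx1, h5⟩
        · rw [Function.update_of_ne him]
          have him' : i.1 < m := by
            have : i.1 ≠ m := fun h => him (Fin.ext h)
            omega
          refine ⟨(hF i him').1, fun k => ?_⟩
          obtain ⟨l, hl1, hl2⟩ := h6 k
          rw [hl1, hl2]
          exact (hF i him').2 l
    obtain ⟨z, hz, hzi, F, hF⟩ := hind r le_rfl
    refine hr F ?_ z hzi fun k i => (hF i i.2).2 k
    intro i i' hii
    by_contra hne
    obtain ⟨n, hn, hne'⟩ := hN i i' hne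
    have h7 := (hF i i.2).1 n (A i n) ((hpr _ _ _ _).2 ⟨hn, rfl⟩)
    have h8 := (hF i' i'.2).1 n (A i' n) ((hpr _ _ _ _).2 ⟨hn, rfl⟩)
    simp only at hii
    rw [hii, h8] at h7
    exact hne' h7.symm
  -- avoid all of them
  have hav : ∃ z ⊆ Y, z.Infinite ∧ ∀ k, ¬ ∃ A ∈ K, Φ j A (en z (2 * k)) (en z (2 * k + 1)) := by
    refine exists_avoid' (P := fun a b => ∃ A ∈ K, Φ j A a b) hYi ?_
    have h9 : ∀ A ∈ K, ∃ a₀, ∀ a ≥ a₀, {b | Φ j A a b}.Finite := by
      rintro A ⟨⟨x, rfl⟩, -⟩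
      exact h3 x j
    choose! α hα using h9
    refine ⟨hKfin.toFinset.sup α, fun a ha => ?_⟩
    have h10 : {b | ∃ A ∈ K, Φ j A a b} = ⋃ A ∈ K, {b | Φ j A a b} := by
      ext b
      simp
    rw [h10]
    refine hKfin.biUnion fun A hA => hα A hA a ?_
    exact le_trans (Finset.le_sup (f := α) (hKfin.mem_toFinset.2 hA)) ha
  obtain ⟨z, hz, hzi, hzK⟩ := hav
  obtain ⟨x, -, hx⟩ := hnil z hz hzi
  obtain ⟨k, hk⟩ := hx.nonempty
  exact hzK k ⟨g x, hK z hz hzi x hx, hk⟩

end Pool.Agent.X215.Dens
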