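import Mathlib

/-!
# Dyadic block densities and the density zero ideal
-/

namespace Pool.Agent.X215.Dens

open Filter Topology

/-- The dyadic block `[2^m, 2^(m+1))`. -/
def blk (m : ℕ) : Set ℕ := Set.Ico (2 ^ m) (2 ^ (m + 1))

theorem blk_finite (m : ℕ) : (blk m).Finite := Set.finite_Ico _ _

/-- The relative size of `A` in the block `m`. -/
noncomputable def mass (m : ℕ) (A : Set ℕ) : ℝ := ((A ∩ blk m).ncard : ℝ) / 2 ^ m

/-- The number of elements of `A` below `n`. -/
noncomputable def cnt (A : Set ℕ) (n : ℕ) : ℕ := (A ∩ Set.Iio n).ncard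

/-- Asymptotic density zero. -/
def DZ (A : Set ℕ) : Prop := Tendsto (fun n : ℕ => (cnt A n : ℝ) / n) atTop (𝓝 0)

theorem ncard_blk (m : ℕ) : (blk m).ncard = 2 ^ m := by
  rw [blk, ← Finset.coe_Ico, Set.ncard_coe_finset, Nat.card_Ico, pow_succ]; omega

theorem mass_nonneg (m : ℕ) (A : Set ℕ) : 0 ≤ mass m A := by
  unfold mass; positivity

theorem mass_mono {m : ℕ} {A B : Set ℕ} (h : A ∩ blk m ⊆ B) : mass m A ≤ mass m B := by
  unfold mass
  have h1 : (A ∩ blk m).ncard ≤ (B ∩ blk m).ncard :=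
    Set.ncard_le_ncard (fun n hn => ⟨h hn, hn.2⟩) ((blk_finite m).subset Set.inter_subset_right)
  have h2 : ((A ∩ blk m).ncard : ℝ) ≤ (B ∩ blk m).ncard := by exact_mod_cast h1
  exact div_le_div_of_nonneg_right h2 (by positivity)

theorem mass_le_one (m : ℕ) (A : Set ℕ) : mass m A ≤ 1 := by
  unfold mass
  rw [div_le_one (by positivity)]
  have h1 : (A ∩ blk m).ncard ≤ 2 ^ m := by
    rw [← ncard_blk]; exact Set.ncard_le_ncard Set.inter_subset_right (blk_finite m)
  exact_mod_cast h1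

theorem mem_blk_unique {m m' n : ℕ} (h : n ∈ blk m) (h' : n ∈ blk m') : m = m' := by
  rw [blk, Set.mem_Ico] at h h'
  have h1 : 2 ^ m < 2 ^ (m' + 1) := lt_of_le_of_lt h.1 h'.2
  have h2 : 2 ^ m' < 2 ^ (m + 1) := lt_of_le_of_lt h'.1 h.2
  have h3 := (Nat.pow_lt_pow_iff_right (by norm_num : 1 < 2)).1 h1
  have h4 := (Nat.pow_lt_pow_iff_right (by norm_num : 1 < 2)).1 h2
  omega

theorem cnt_mono (A : Set ℕ) {n n' : ℕ} (h : n ≤ n') : cnt A n ≤ cnt A n' :=
  Set.ncard_le_ncard (Set.inter_subset_inter_right _ (Set.Iio_subset_Iio h))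
    ((Set.finite_Iio _).subset Set.inter_subset_right)

theorem cnt_le (A : Set ℕ) (n : ℕ) : cnt A n ≤ n := by
  unfold cnt
  calc (A ∩ Set.Iio n).ncard ≤ (Set.Iio n).ncard :=
        Set.ncard_le_ncard Set.inter_subset_right (Set.finite_Iio _)
    _ = n := by rw [← Finset.coe_Iio, Set.ncard_coe_finset, Nat.card_Iio]

theorem cnt_succ_pow (A : Set ℕ) (m : ℕ) :
    (cnt A (2 ^ (m + 1)) : ℝ) = cnt A (2 ^ m) + mass m A * 2 ^ m := by
  unfold mass
  rw [div_mul_cancel₀ _ (by positivity)]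
  unfold cnt
  have h1 : A ∩ Set.Iio (2 ^ (m + 1)) = (A ∩ Set.Iio (2 ^ m)) ∪ (A ∩ blk m) := by
    rw [← Set.inter_union_distrib_left]
    congr 1
    ext k
    rw [Set.mem_union, Set.mem_Iio, Set.mem_Iio, blk, Set.mem_Ico]
    have : 2 ^ m ≤ 2 ^ (m + 1) := Nat.pow_le_pow_right (by norm_num) (by omega)
    omega
  have h2 : Disjoint (A ∩ Set.Iio (2 ^ m)) (A ∩ blk m) := by
    rw [Set.disjoint_left]
    rintro k ⟨-, hk⟩ ⟨-, hk'⟩
    rw [Set.mem_Iio] at hk
    rw [blk, Set.mem_Ico] at hk'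
    omega
  rw [h1, Set.ncard_union_eq h2 ((Set.finite_Iio _).subset Set.inter_subset_right)
    ((blk_finite m).subset Set.inter_subset_right)]
  push_cast
  ring

theorem tendsto_mass_of_dz {A : Set ℕ} (h : DZ A) : Tendsto (fun m => mass m A) atTop (𝓝 0) := by
  have h1 : Tendsto (fun m : ℕ => 2 * ((cnt A (2 ^ (m + 1)) : ℝ) / ((2 ^ (m + 1) : ℕ) : ℝ))) atTop
      (𝓝 (2 * 0)) := by
    refine Tendsto.const_mul 2 (h.comp ?_)
    exact (tendsto_pow_atTop_atTop_of_one_lt (by norm_num : 1 < 2)).comp (tendsto_add_atTop_nat 1)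
  rw [mul_zero] at h1
  refine squeeze_zero (fun m => mass_nonneg m A) (fun m => ?_) h1
  have h2 := cnt_succ_pow A m
  have h3 : (0 : ℝ) ≤ cnt A (2 ^ m) := Nat.cast_nonneg _
  have h4 : (2 : ℝ) ^ (m + 1) = 2 ^ m * 2 := pow_succ _ _
  push_cast
  rw [← mul_div_assoc, le_div_iff₀ (by positivity), h4]
  nlinarith

/-- If the masses are eventually at most `η` then the counting ratio is eventually at most
`3 η`. -/
theorem cnt_le_of_mass_le {A : Set ℕ} {η : ℝ} (hη : 0 < η) (h : ∀ᶠ m in atTop, mass m A ≤ η) :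
    ∀ᶠ n : ℕ in atTop, (cnt A n : ℝ) ≤ 3 * η * n := by
  obtain ⟨M, hM⟩ := eventually_atTop.1 h
  have h1 : ∀ m, M ≤ m → (cnt A (2 ^ m) : ℝ) ≤ 2 ^ M + η * 2 ^ m := by
    intro m hm
    induction m, hm using Nat.le_induction with
    | base =>
      have h2 : cnt A (2 ^ M) ≤ 2 ^ M := cnt_le _ _
      have h3 : (cnt A (2 ^ M) : ℝ) ≤ 2 ^ M := by exact_mod_cast h2
      have h4 : 0 ≤ η * 2 ^ M := by positivity
      linarith
    | succ m hm ih =>
      rw [cnt_succ_pow, pow_succ]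
      have h5 := hM m hm
      have h6 : mass m A * 2 ^ m ≤ η * 2 ^ m := by gcongr
      nlinarith
  have h7 : ∀ᶠ n : ℕ in atTop, (2 : ℝ) ^ M ≤ η * n := by
    have : Tendsto (fun n : ℕ => η * (n : ℝ)) atTop atTop :=
      tendsto_natCast_atTop_atTop.const_mul_atTop hη
    exact this.eventually_ge_atTop _
  filter_upwards [h7, eventually_ge_atTop (2 ^ M)] with n hn hn'
  have hn0 : n ≠ 0 := by
    have : 0 < 2 ^ M := by positivity
    omega
  set m := Nat.log 2 n with hm
  have h8 : 2 ^ m ≤ n := Nat.pow_log_le_self 2 hn0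
  have h9 : n < 2 ^ (m + 1) := Nat.lt_pow_succ_log_self (by norm_num) n
  have h10 : M ≤ m := (Nat.le_log_iff_pow_le (by norm_num) hn0).2 hn'
  have h11 : (cnt A n : ℝ) ≤ cnt A (2 ^ (m + 1)) := by exact_mod_cast cnt_mono A h9.le
  have h12 := h1 (m + 1) (by omega)
  have h13 : (2 : ℝ) ^ m ≤ n := by exact_mod_cast h8
  have h14 : (2 : ℝ) ^ (m + 1) = 2 ^ m * 2 := pow_succ _ _
  rw [h14] at h12
  have h15 := mul_le_mul_of_nonneg_left h13 hη.le
  linarith

theorem dz_of_tendsto_mass {A : Set ℕ} (h : Tendsto (fun m => mass m A) atTop (𝓝 0)) : DZ A := by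
  unfold DZ
  rw [Metric.tendsto_atTop]
  intro ε hε
  have h1 : ∀ᶠ m in atTop, mass m A ≤ ε / 6 := h.eventually_le_const (by linarith)
  have h2 := cnt_le_of_mass_le (by linarith : 0 < ε / 6) h1
  obtain ⟨N, hN⟩ := eventually_atTop.1 (h2.and (eventually_gt_atTop 0))
  refine ⟨N, fun n hn => ?_⟩
  obtain ⟨h3, h4⟩ := hN n hn
  have h5 : (0 : ℝ) < n := by exact_mod_cast h4
  rw [Real.dist_eq, sub_zero, abs_of_nonneg (by positivity), div_lt_iff₀ h5]
  nlinarith

/-- A set which does not have density zero has mass bounded below in infinitely many blocks. -/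
theorem exists_frequently_mass {A : Set ℕ} (h : ¬ DZ A) :
    ∃ j : ℕ, ∃ᶠ m in atTop, 1 / ((j : ℝ) + 1) ≤ mass m A := by
  by_contra hcon
  rw [not_exists] at hcon
  refine h (dz_of_tendsto_mass ?_)
  rw [Metric.tendsto_atTop]
  intro ε hε
  obtain ⟨j, hj⟩ := exists_nat_one_div_lt hε
  have h1 := hcon j
  rw [not_frequently] at h1
  obtain ⟨N, hN⟩ := eventually_atTop.1 h1
  refine ⟨N, fun n hn => ?_⟩
  have h2 := hN n hn
  rw [not_le] at h2
  rw [Real.dist_eq, sub_zero, abs_of_nonneg (mass_nonneg _ _)]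
  linarith

theorem mass_union_le (m : ℕ) (A B : Set ℕ) : mass m (A ∪ B) ≤ mass m A + mass m B := by
  unfold mass
  rw [← add_div]
  refine div_le_div_of_nonneg_right ?_ (by positivity)
  rw [Set.union_inter_distrib_right]
  exact_mod_cast Set.ncard_union_le _ _

theorem mass_union_add_inter (m : ℕ) (A B : Set ℕ) :
    mass m (A ∪ B) + mass m (A ∩ B) = mass m A + mass m B := by
  unfold mass
  rw [← add_div, ← add_div]
  congr 1
  have h1 := Set.ncard_union_add_ncard_inter (A ∩ blk m) (B ∩ blk m)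
    ((blk_finite m).subset Set.inter_subset_right) ((blk_finite m).subset Set.inter_subset_right)
  rw [← Set.union_inter_distrib_right, ← Set.inter_inter_distrib_right] at h1
  exact_mod_cast h1

theorem mass_empty (m : ℕ) : mass m ∅ = 0 := by
  simp [mass]

theorem mass_iUnion_le (m r : ℕ) (A : ℕ → Set ℕ) :
    mass m {n | ∃ i < r, n ∈ A i} ≤ ∑ i ∈ Finset.range r, mass m (A i) := by
  induction r with
  | zero =>
    have : {n | ∃ i < 0, n ∈ A i} = (∅ : Set ℕ) := by ext; simp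
    rw [this, mass_empty]; simp
  | succ r ih =>
    rw [Finset.sum_range_succ]
    have : {n | ∃ i < r + 1, n ∈ A i} = {n | ∃ i < r, n ∈ A i} ∪ A r := by
      ext n
      simp only [Set.mem_setOf_eq, Set.mem_union]
      constructor
      · rintro ⟨i, hi, hn⟩
        rcases Nat.lt_succ_iff_lt_or_eq.1 hi with h | h
        · exact Or.inl ⟨i, h, hn⟩
        · exact Or.inr (h ▸ hn)
      · rintro (⟨i, hi, hn⟩ | hn)
        · exact ⟨i, by omega, hn⟩
        · exact ⟨r, by omega, hn⟩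
    rw [this]
    exact (mass_union_le _ _ _).trans (by linarith)

/-- Inclusion and exclusion of the first two orders. -/
theorem sum_mass_le (m : ℕ) (r : ℕ) (A : ℕ → Set ℕ) :
    ∑ i ∈ Finset.range r, mass m (A i) ≤
      mass m {n | ∃ i < r, n ∈ A i} +
        ∑ i ∈ Finset.range r, ∑ j ∈ Finset.range i, mass m (A j ∩ A i) := by
  induction r with
  | zero =>
    simp only [Finset.range_zero, Finset.sum_empty, add_zero]
    exact mass_nonneg _ _
  | succ r ih =>
    rw [Finset.sum_range_succ, Finset.sum_range_succ]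
    have h0 : {n | ∃ i < r + 1, n ∈ A i} = {n | ∃ i < r, n ∈ A i} ∪ A r := by
      ext n
      simp only [Set.mem_setOf_eq, Set.mem_union]
      constructor
      · rintro ⟨i, hi, hn⟩
        rcases Nat.lt_succ_iff_lt_or_eq.1 hi with h | h
        · exact Or.inl ⟨i, h, hn⟩
        · exact Or.inr (h ▸ hn)
      · rintro (⟨i, hi, hn⟩ | hn)
        · exact ⟨i, by omega, hn⟩
        · exact ⟨r, by omega, hn⟩
    rw [h0]
    have h2 := mass_union_add_inter m {n | ∃ i < r, n ∈ A i} (A r)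
    have h5 : mass m ({n | ∃ i < r, n ∈ A i} ∩ A r) ≤
        ∑ j ∈ Finset.range r, mass m (A j ∩ A r) := by
      have h6 : {n | ∃ i < r, n ∈ A i} ∩ A r = {n | ∃ i < r, n ∈ A i ∩ A r} := by
        ext n
        simp only [Set.mem_inter_iff, Set.mem_setOf_eq]
        constructor
        · rintro ⟨⟨i, hi, h⟩, h'⟩
          exact ⟨i, hi, h, h'⟩
        · rintro ⟨i, hi, h, h'⟩
          exact ⟨⟨i, hi, h⟩, h'⟩
      rw [h6]
      exact mass_iUnion_le m r fun j => A j ∩ A r
    linarith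

end Pool.Agent.X215.Dens
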